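import Pool.Agent.helper34.MO.SpecB

set_option autoImplicit false

open Complex Finset

namespace Pool.Agent.MO

theorem S5_mem {i : ℕ} (h : i ∈ ({0, 1, 2, 3, 4} : Finset ℕ)) : i = 0 ∨ i = 1 ∨ i = 2 ∨ i = 3 ∨ i = 4 := by
  simpa using h

theorem S5_U (A B C U W m : ℂ) : ∀ i ∈ ({0, 1, 2, 3, 4} : Finset ℕ), ∀ j ∈ ({0, 1, 2, 3, 4} : Finset ℕ),
    G5 A B C U W m (-I) (-I) (-I) (-I) (-I) (-I) i j =
      addk (G5 A B C 1 W m (-I) (-I) (-I) (-I) (-I) (-I)) 3 (U - 1) i j := by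
  intro i hi j hj
  rcases S5_mem hi with rfl | rfl | rfl | rfl | rfl <;> rcases S5_mem hj with rfl | rfl | rfl | rfl | rfl <;>
    simp [addk, G5]

theorem S5_W (A B C U W m : ℂ) : ∀ i ∈ ({0, 1, 2, 3, 4} : Finset ℕ), ∀ j ∈ ({0, 1, 2, 3, 4} : Finset ℕ),
    G5 A B C U W m (-I) (-I) (-I) (-I) (-I) (-I) i j =
      addk (G5 A B C U 1 m (-I) (-I) (-I) (-I) (-I) (-I)) 4 (W - 1) i j := by
  intro i hi j hj
  rcases S5_mem hi with rfl | rfl | rfl | rfl | rfl <;> rcases S5_mem hj with rfl | rfl | rfl | rfl | rfl <;>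
    simp [addk, G5]

theorem S5_C (A B C U W m a : ℂ) : ∀ i ∈ ({0, 1, 2, 3, 4} : Finset ℕ), ∀ j ∈ ({0, 1, 2, 3, 4} : Finset ℕ),
    G5 A B C U W m (-I) (-I) (-I) (-I) (-I) (-I) i j =
      addk (G5 A B a U W m (-I) (-I) (-I) (-I) (-I) (-I)) 2 (C - a) i j := by
  intro i hi j hj
  rcases S5_mem hi with rfl | rfl | rfl | rfl | rfl <;> rcases S5_mem hj with rfl | rfl | rfl | rfl | rfl <;>
    simp [addk, G5]

theorem S5_acc (hACG : ACG_stmt) (A B m : ℂ) (C U W : ℝ) (h : Acc2 A B m) (hC : 0 < C) (hU : 0 < U) (hW : 0 < W) :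
    AccS (G5 A B C U W m (-I) (-I) (-I) (-I) (-I) (-I)) {0, 1, 2, 3, 4} := by
  have hI : (-I : ℂ).re = 0 := by simp
  have h1 := hACG A B m 0 0 0 C U W (-I) (-I) (-I) (-I) (-I) (-I) h (by
    refine ⟨?_, ?_, ?_⟩ <;> simp) hC hU hW hI hI hI hI hI hI
  simpa using h1

theorem S5 (hMOD : MOD_stmt) (hPHE : PHE_stmt) (hEV : EV_stmt) (hACG : ACG_stmt) (hA2P : A2P_stmt) (hS3 : S3_stmt)
    (hS4 : S4_stmt) (hS5a : S5a_stmt) : S5_stmt := by
  intro f A B m a C U W hA hG hG' ha ha1 hG3 haC hU hW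
  have hC : 0 < C := lt_of_lt_of_le ha haC
  have hph : ∀ T : ℝ, a ≤ T → 0 ≤ f + ph3 A B T m (-I) (-I) := by
    intro T hT
    have h1 := hG3 0 0 T le_rfl le_rfl hT
    simpa using h1
  -- the last step
  have k3 : 0 ≤ f + phS (G5 A B C 1 1 m (-I) (-I) (-I) (-I) (-I) (-I)) {0, 1, 2, 3, 4} := by
    have hacc := S5_acc hACG A B m a 1 1 hA ha one_pos one_pos
    rw [ofReal_one] at hacc
    have hins : ({0, 1, 2, 3, 4} : Finset ℕ) = insert 2 {0, 1, 3, 4} := by decide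
    have e1 := (hPHE.2.2.1 (G5 A B C 1 1 m (-I) (-I) (-I) (-I) (-I) (-I)) _ _ (S5_C A B C 1 1 m a)).1
    rw [e1]
    have h1 := (hMOD (G5 A B a 1 1 m (-I) (-I) (-I) (-I) (-I) (-I)) {0, 1, 3, 4} 2 ((C : ℂ) - a) (by decide)
      (hins ▸ hacc) (by simpa using haC) (by simp)).2
    rw [← hins] at h1
    have h2 := hS4 f A B m a 1 1 hA hG one_pos one_pos
    rw [ofReal_one] at h2
    have h3 := hS5a f A B m a hA hG hG' ha ha1 (hph a le_rfl)
    rcases min_le_iff.mp h1 with h4 | h4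
    · linarith
    · linarith
  have k2 : 0 ≤ f + phS (G5 A B C 1 W m (-I) (-I) (-I) (-I) (-I) (-I)) {0, 1, 2, 3, 4} := by
    have hacc := S5_acc hACG A B m C 1 1 hA hC one_pos one_pos
    rw [ofReal_one] at hacc
    have hins : ({0, 1, 2, 3, 4} : Finset ℕ) = insert 4 {0, 1, 2, 3} := by decide
    have e1 := (hPHE.2.2.1 (G5 A B C 1 W m (-I) (-I) (-I) (-I) (-I) (-I)) _ _ (S5_W A B C 1 W m)).1
    rw [e1]
    have h1 := (hMOD (G5 A B C 1 1 m (-I) (-I) (-I) (-I) (-I) (-I)) {0, 1, 2, 3} 4 ((W : ℂ) - 1) (by decide)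
      (hins ▸ hacc) (by simpa using hW) (by simp)).2
    rw [← hins] at h1
    have h2 := ((hS3 f A B m C 1 hA hC one_pos).2.2 hG' (hph C haC)).1
    rw [ofReal_one] at h2
    have e2 : phS (G5 A B C 1 1 m (-I) (-I) (-I) (-I) 0 0) {0, 1, 2, 3} =
        phS (G5 A B C 1 1 m (-I) (-I) (-I) (-I) (-I) (-I)) {0, 1, 2, 3} := by
      refine (hPHE.2.2.1 _ _ _ ?_).1
      intro i hi j hj
      have hi' : i = 0 ∨ i = 1 ∨ i = 2 ∨ i = 3 := by simpa using hi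
      have hj' : j = 0 ∨ j = 1 ∨ j = 2 ∨ j = 3 := by simpa using hj
      rcases hi' with rfl | rfl | rfl | rfl <;> rcases hj' with rfl | rfl | rfl | rfl <;> simp [G5]
    rw [e2] at h2
    rcases min_le_iff.mp h1 with h4 | h4
    · linarith
    · linarith
  have hacc := S5_acc hACG A B m C 1 W hA hC one_pos (by linarith)
  rw [ofReal_one] at hacc
  have hins : ({0, 1, 2, 3, 4} : Finset ℕ) = insert 3 {0, 1, 2, 4} := by decide
  have e1 := (hPHE.2.2.1 (G5 A B C U W m (-I) (-I) (-I) (-I) (-I) (-I)) _ _ (S5_U A B C U W m)).1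
  rw [e1]
  have h1 := (hMOD (G5 A B C 1 W m (-I) (-I) (-I) (-I) (-I) (-I)) {0, 1, 2, 4} 3 ((U : ℂ) - 1) (by decide)
    (hins ▸ hacc) (by simpa using hU) (by simp)).2
  rw [← hins] at h1
  have h2 := ((hS3 f A B m C W hA hC (by linarith)).2.2 hG' (hph C haC)).2
  have e2 : phS (G5 A B C 1 W m (-I) (-I) 0 0 (-I) (-I)) {0, 1, 2, 4} =
      phS (G5 A B C 1 W m (-I) (-I) (-I) (-I) (-I) (-I)) {0, 1, 2, 4} := by
    refine (hPHE.2.2.1 _ _ _ ?_).1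
    intro i hi j hj
    have hi' : i = 0 ∨ i = 1 ∨ i = 2 ∨ i = 4 := by simpa using hi
    have hj' : j = 0 ∨ j = 1 ∨ j = 2 ∨ j = 4 := by simpa using hj
    rcases hi' with rfl | rfl | rfl | rfl <;> rcases hj' with rfl | rfl | rfl | rfl <;> simp [G5]
  rw [e2] at h2
  rcases min_le_iff.mp h1 with h4 | h4
  · linarith
  · linarith

end Pool.Agent.MO
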